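import Pool.Agent.H67.AG.T4
import Pool.Agent.H77.AG.RS

/-!
ABSOLUTE GAP (`MP_c59857_nt`): row RA. A test for inequalities between rational functions.
-/

set_option autoImplicit false

open MeasureTheory ProbabilityTheory Filter Topology Finset
open scoped Nat ENNReal

namespace Pool.Agent.H3.GA

open Pool.Agent.H67.AG

theorem inv_mono {Ω : Type} [MeasurableSpace Ω] (T : Ω ≃ᵐ Ω) {a b : ℕ} (h : a ∣ b) :
    Inv T a ≤ Inv T b := by
  intro s hs
  obtain ⟨c, rfl⟩ := h
  refine ⟨hs.1, ?_⟩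
  have h1 : T^[a] ⁻¹' s = s := hs.2
  change T^[a * c] ⁻¹' s = s
  rw [Function.iterate_mul]
  induction c with
  | zero => rfl
  | succ c ih =>
    rw [Function.iterate_succ, Set.preimage_comp, ih, h1]

theorem inv_le_rt {Ω : Type} [MeasurableSpace Ω] (T : Ω ≃ᵐ Ω) {a : ℕ} (h : 0 < a) :
    Inv T a ≤ Rt T :=
  (inv_mono T (Nat.dvd_factorial h le_rfl)).trans (le_iSup (fun w : ℕ => Inv T (w !)) a)

theorem pf_RA (hlv : T_LV) : T_RA := by
  intro Ω mΩ P _ T Q F B hQ hF hFi hB hA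
  have hrs := Pool.Agent.H77.AG.pf_RS hlv
  have hle := Pool.Agent.H77.AG.rt_le T
  have hBR : MeasurableSet[Rt T] B := inv_le_rt T hQ B hB
  set S : Set Ω := {ω | 0 < F ω} ∩ B with hS
  have hSR : MeasurableSet[Rt T] S :=
    MeasurableSet.inter (hF measurableSet_Ioi) hBR
  have hSm : MeasurableSet S := hle S hSR
  have hBm : MeasurableSet B := hle B hBR
  have key : ∀ n : ℕ, ∃ A : Set Ω, MeasurableSet A ∧ ∫ ω in A, F ω ∂P ≤ 0 ∧
      P.real (symmDiff S A) ≤ 1 / ((n : ℝ) + 1) := by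
    intro n
    obtain ⟨w₀, h₀⟩ := hrs Ω P T S (1 / ((n : ℝ) + 1)) hSR (by positivity)
    obtain ⟨A', hA', hd⟩ := h₀ (Q * w₀ !) (Nat.mul_pos hQ (Nat.factorial_pos _))
      (Dvd.intro_left _ rfl)
    have hB' : MeasurableSet[Inv T (Q * w₀ !)] B := inv_mono T (Dvd.intro _ rfl) B hB
    have hAB : MeasurableSet[Inv T (Q * w₀ !)] (A' ∩ B) := hA'.inter hB'
    refine ⟨A' ∩ B, MeasurableSpace.invariants_le _ _ hAB, hA w₀ _ hAB Set.inter_subset_right, ?_⟩
    refine le_trans (measureReal_mono ?_) hd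
    intro ω hω
    rcases hω with ⟨h1, h2⟩ | ⟨h1, h2⟩
    · exact Or.inl ⟨h1, fun h => h2 ⟨h, h1.2⟩⟩
    · exact Or.inr ⟨h1.1, h2⟩
  choose A hAm hAi hAd using key
  -- the integral over `S` is at most `0`
  have hsd : Tendsto (fun n => P (symmDiff S (A n))) atTop (𝓝 0) := by
    have h1 : Tendsto (fun n => P.real (symmDiff S (A n))) atTop (𝓝 0) :=
      squeeze_zero (fun n => measureReal_nonneg) hAd tendsto_one_div_add_atTop_nhds_zero_nat
    have h2 := (ENNReal.tendsto_toReal_iff (fun n => measure_ne_top P (symmDiff S (A n)))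
      ENNReal.zero_ne_top).1 (by rw [ENNReal.toReal_zero]; exact h1)
    exact h2
  have hsd1 : Tendsto (fun n => P (S \ A n)) atTop (𝓝 0) :=
    tendsto_of_tendsto_of_tendsto_of_le_of_le tendsto_const_nhds hsd (fun n => zero_le)
      (fun n => measure_mono fun ω h => Or.inl h)
  have hsd2 : Tendsto (fun n => P (A n \ S)) atTop (𝓝 0) :=
    tendsto_of_tendsto_of_tendsto_of_le_of_le tendsto_const_nhds hsd (fun n => zero_le)
      (fun n => measure_mono fun ω h => Or.inr h)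
  have t1 := hFi.hasFiniteIntegral.tendsto_setIntegral_nhds_zero hsd1
  have t2 := hFi.hasFiniteIntegral.tendsto_setIntegral_nhds_zero hsd2
  have hle0 : ∫ ω in S, F ω ∂P ≤ 0 := by
    have h3 : ∀ n, ∫ ω in S, F ω ∂P ≤ ∫ ω in S \ A n, F ω ∂P - ∫ ω in A n \ S, F ω ∂P := by
      intro n
      have e1 : ∫ ω in S, F ω ∂P = ∫ ω in S ∩ A n, F ω ∂P + ∫ ω in S \ A n, F ω ∂P :=
        (integral_inter_add_sdiff (hAm n) hFi.integrableOn).symm
      have e2 : ∫ ω in A n, F ω ∂P = ∫ ω in A n ∩ S, F ω ∂P + ∫ ω in A n \ S, F ω ∂P :=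
        (integral_inter_add_sdiff hSm hFi.integrableOn).symm
      rw [Set.inter_comm] at e2
      have := hAi n
      linarith
    have h4 : Tendsto (fun n => ∫ ω in S \ A n, F ω ∂P - ∫ ω in A n \ S, F ω ∂P) atTop
        (𝓝 (0 - 0)) := t1.sub t2
    rw [sub_zero] at h4
    exact ge_of_tendsto' h4 h3
  have hS0 : P S = 0 := by
    by_contra hne
    have hpos : 0 < P S := pos_iff_ne_zero.2 hne
    have h5 : 0 < ∫ ω in S, F ω ∂P := by
      rw [setIntegral_pos_iff_support_of_nonneg_ae]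
      · refine lt_of_lt_of_le hpos (measure_mono ?_)
        intro ω hω
        exact ⟨ne_of_gt hω.1, hω⟩
      · exact (ae_restrict_iff' hSm).2 (Eventually.of_forall fun ω hω => le_of_lt hω.1)
      · exact hFi.integrableOn
    linarith
  have h6 : ∀ᵐ ω ∂P, ω ∉ S := by
    rw [ae_iff]
    simpa using hS0
  filter_upwards [h6] with ω hω hωB
  by_contra hlt
  exact hω ⟨not_le.1 hlt, hωB⟩

end Pool.Agent.H3.GA
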