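import Pool.Agent.H67.AG.T4
import Pool.Agent.H67.AG.T3
import Pool.Agent.H3.GA.RA

/-!
ABSOLUTE GAP (`MP_c59857_nt`): row DW. The dichotomy for a fixed modulus.
-/

set_option autoImplicit false

open MeasureTheory ProbabilityTheory Filter Topology Finset
open scoped Nat ENNReal

namespace Pool.Agent.H3.GA

open Pool.Agent.H67.AG
open Pool.Agent.H24.T2 (Pset)

/-! ### finite combinatorics -/

/-- the square of a sum -/
theorem sq_sum_erase {k : ℕ} (g : Fin k → ℝ) :
    (∑ i, g i) ^ 2 = ∑ i, g i ^ 2 + ∑ i, ∑ j ∈ univ.erase i, g i * g j := by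
  rw [sq, Finset.sum_mul, ← Finset.sum_add_distrib]
  refine Finset.sum_congr rfl fun i _ => ?_
  rw [← Finset.add_sum_erase univ g (Finset.mem_univ i), mul_add, Finset.mul_sum, sq]

theorem sign_count {k : ℕ} (a b : Fin k → ℝ) (ha : ∀ i, a i = 1 ∨ a i = -1)
    (hb : ∀ i, b i = 1 ∨ b i = -1) (g : Fin k → ℝ)
    (hg : ∀ i, (g i = 0 ∧ a i = b i) ∨ (g i = 1 ∧ a i ≠ b i)) (σ : ℝ) (hσ : σ = 1 ∨ σ = -1)
    (c c' : ℝ) (hc : 0 ≤ c) (hc' : 0 ≤ c') (h1 : ∏ i, a i ≠ σ → c = 1) (h2 : ∏ i, b i ≠ σ → c' = 1) :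
    ∑ i, g i - ∑ i, ∑ j ∈ univ.erase i, g i * g j ≤ c + c' := by
  classical
  set s : Finset (Fin k) := univ.filter fun i => a i ≠ b i with hs
  have hN : ∑ i, g i = s.card := by
    rw [hs, Finset.card_filter]
    push_cast
    refine Finset.sum_congr rfl fun i _ => ?_
    rcases hg i with ⟨h, h'⟩ | ⟨h, h'⟩
    · simp [h, h']
    · simp [h, h']
  have hgg : ∑ i, g i ^ 2 = ∑ i, g i := by
    refine Finset.sum_congr rfl fun i _ => ?_
    rcases hg i with ⟨h, _⟩ | ⟨h, _⟩ <;> simp [h]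
  have hprod : ∏ i, b i = (-1) ^ s.card * ∏ i, a i := by
    have h3 : ∀ i, b i = (if a i ≠ b i then -1 else 1) * a i := by
      intro i
      rcases ha i with h | h <;> rcases hb i with h' | h' <;> rw [h, h'] <;> norm_num
    have h4 : ∏ i, b i = ∏ i, ((if a i ≠ b i then (-1 : ℝ) else 1) * a i) :=
      Finset.prod_congr rfl fun i _ => h3 i
    rw [h4, Finset.prod_mul_distrib, Finset.prod_ite, Finset.prod_const, Finset.prod_const_one,
      mul_one]
  have hsq := sq_sum_erase g
  rw [hgg] at hsq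
  have e1 : ∑ i, g i - ∑ i, ∑ j ∈ univ.erase i, g i * g j = 2 * (s.card : ℝ) - (s.card : ℝ) ^ 2 := by
    rw [← hN]; linarith
  rw [e1]
  have hone : 2 * (s.card : ℝ) - (s.card : ℝ) ^ 2 ≤ 1 := by nlinarith [sq_nonneg ((s.card : ℝ) - 1)]
  by_cases hA : ∏ i, a i = σ
  · by_cases hB : ∏ i, b i = σ
    · -- the number of mismatches is even
      have hσ0 : σ ≠ 0 := by rcases hσ with h | h <;> rw [h] <;> norm_num
      rw [hA, hB] at hprod
      have h5 : ((-1 : ℝ)) ^ s.card = 1 := by
        have h6 : ((-1 : ℝ) ^ s.card - 1) * σ = 0 := by linarith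
        rcases mul_eq_zero.1 h6 with h | h
        · linarith
        · exact absurd h hσ0
      have h7 : Even s.card := by
        rcases Nat.even_or_odd s.card with h | h
        · exact h
        · rw [h.neg_one_pow] at h5; norm_num at h5
      have h8 : 2 * (s.card : ℝ) - (s.card : ℝ) ^ 2 ≤ 0 := by
        rcases Nat.eq_zero_or_pos s.card with h0 | h0
        · rw [h0]; norm_num
        · have h9 : 2 ≤ s.card := by
            obtain ⟨r, hr⟩ := h7
            omega
          have h10 : (2 : ℝ) ≤ s.card := by exact_mod_cast h9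
          nlinarith
      linarith
    · rw [h2 hB]; linarith
  · rw [h1 hA]; linarith

/-! ### averages -/

theorem avgP_le {W m : ℕ} {F G : ℕ → ℝ} (h : ∀ p ∈ Pset W m, F p ≤ G p) :
    avgP W m F ≤ avgP W m G := by
  unfold avgP
  exact div_le_div_of_nonneg_right (Finset.sum_le_sum h) (Nat.cast_nonneg _)

theorem avgP_add (W m : ℕ) (F G : ℕ → ℝ) :
    avgP W m (fun p => F p + G p) = avgP W m F + avgP W m G := by
  unfold avgP
  rw [Finset.sum_add_distrib, add_div]

theorem avgP_sub (W m : ℕ) (F G : ℕ → ℝ) :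
    avgP W m (fun p => F p - G p) = avgP W m F - avgP W m G := by
  unfold avgP
  rw [Finset.sum_sub_distrib, sub_div]

theorem avgP_sum {ι : Type} (s : Finset ι) (W m : ℕ) (F : ι → ℕ → ℝ) :
    avgP W m (fun p => ∑ i ∈ s, F i p) = ∑ i ∈ s, avgP W m (F i) := by
  unfold avgP
  rw [Finset.sum_comm, Finset.sum_div]

theorem avgP_const {W m : ℕ} (h : (Pset W m).Nonempty) (c : ℝ) : avgP W m (fun _ => c) = c := by
  unfold avgP
  have h0 : ((Pset W m).card : ℝ) ≠ 0 := by
    exact_mod_cast (Finset.card_pos.2 h).ne'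
  rw [Finset.sum_const, nsmul_eq_mul]
  field_simp

theorem avgP_bd {W m : ℕ} {F : ℕ → ℝ} (h : ∀ p, 0 ≤ F p ∧ F p ≤ 1) : |avgP W m F| ≤ 1 := by
  unfold avgP
  have h1 : (0 : ℝ) ≤ ∑ p ∈ Pset W m, F p := Finset.sum_nonneg fun p _ => (h p).1
  have h2 : ∑ p ∈ Pset W m, F p ≤ (Pset W m).card := by
    refine (Finset.sum_le_sum fun p _ => (h p).2).trans ?_
    simp
  rw [abs_of_nonneg (div_nonneg h1 (Nat.cast_nonneg _))]
  exact div_le_one_of_le₀ h2 (Nat.cast_nonneg _)

theorem dvd_of_mem {W m p : ℕ} (h : p ∈ Pset W m) : W ∣ p - 1 := by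
  unfold Pset at h
  rw [Finset.mem_filter, Finset.mem_Ioc] at h
  have h1 : 1 ≤ p := h.2.1.one_le
  exact (Nat.modEq_iff_dvd' h1).1 h.2.2.symm

/-! ### integrals over an invariant set -/

section meas

variable {Ω : Type} [mΩ : MeasurableSpace Ω] (P : Measure Ω) (T : Ω ≃ᵐ Ω)

theorem int_ind {A : Set Ω} (hA : MeasurableSet A) (h : Ω → ℝ) :
    ∫ ω, A.indicator (fun _ => (1 : ℝ)) ω * h ω ∂P = ∫ ω in A, h ω ∂P := by
  rw [← integral_indicator hA]
  refine integral_congr_ae (Eventually.of_forall fun ω => ?_)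
  by_cases hω : ω ∈ A
  · simp [hω]
  · simp [hω]

theorem mem_iter {A : Set Ω} {W n : ℕ} (hA : MeasurableSet[Inv T W] A) (h : W ∣ n) (ω : Ω) :
    T^[n] ω ∈ A ↔ ω ∈ A := by
  have h1 : T^[n] ⁻¹' A = A := (inv_mono T h A hA).2
  constructor
  · intro h2
    rw [← h1]; exact h2
  · intro h2
    rw [← h1] at h2; exact h2

theorem setInt_iter {A : Set Ω} {W n : ℕ} (hT : MeasurePreserving T P P)
    (hA : MeasurableSet[Inv T W] A) (h : W ∣ n) (f : Ω → ℝ) :
    ∫ ω in A, f (T^[n] ω) ∂P = ∫ ω in A, f ω ∂P := by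
  have hAm : MeasurableSet A := MeasurableSpace.invariants_le _ _ hA
  have hTn : MeasurePreserving (T^[n]) P P := hT.iterate n
  have h1 : ∀ n : ℕ, MeasurableEmbedding (T^[n]) := by
    intro n
    induction n with
    | zero => exact MeasurableEmbedding.id
    | succ n ih =>
      rw [Function.iterate_succ]
      exact ih.comp T.measurableEmbedding
  have h2 := hTn.setIntegral_preimage_emb (h1 n) f A
  have h3 : T^[n] ⁻¹' A = A := (inv_mono T h A hA).2
  rw [h3] at h2
  exact h2

theorem iter_meas (n : ℕ) : Measurable (T^[n]) := by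
  induction n with
  | zero => exact measurable_id
  | succ n ih =>
    rw [Function.iterate_succ]
    exact ih.comp T.measurable

theorem dl_meas {k : ℕ} {y y' : Fin k → Ω → ℝ} (hy : Tup y) (hy' : Tup y') (i : Fin k) :
    Measurable (dl y y' i) := by
  unfold dl
  exact Measurable.ite (measurableSet_eq_fun (hy.1 i) (hy'.1 i)) measurable_const measurable_const

omit mΩ in
theorem dl_val {k : ℕ} (y y' : Fin k → Ω → ℝ) (i : Fin k) (ω : Ω) :
    (dl y y' i ω = 0 ∧ y i ω = y' i ω) ∨ (dl y y' i ω = 1 ∧ y i ω ≠ y' i ω) := by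
  unfold dl
  by_cases h : y i ω = y' i ω
  · left; simp [h]
  · right; simp [h]

theorem dl_bd {k : ℕ} (y y' : Fin k → Ω → ℝ) (i : Fin k) (ω : Ω) :
    0 ≤ dl y y' i ω ∧ dl y y' i ω ≤ 1 := by
  rcases dl_val y y' i ω with ⟨h, _⟩ | ⟨h, _⟩ <;> rw [h] <;> norm_num

theorem bd_meas {k : ℕ} (β : Fin k → ℕ) (σ : ℝ) {y : Fin k → Ω → ℝ} (hy : Tup y) (p : ℕ) :
    MeasurableSet (bd T β σ y p) := by
  unfold bd
  have h : Measurable fun ω => ∏ i, y i (T^[(p - 1) * β i] ω) :=
    Finset.measurable_fun_prod _ fun i _ => (hy.1 i).comp (iter_meas T _)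
  exact (h (measurableSet_singleton σ)).compl

end meas

theorem pair_bound {Ω : Type} [MeasurableSpace Ω] (P : Measure Ω) [IsProbabilityMeasure P]
    (T : Ω ≃ᵐ Ω) {k : ℕ} (β : Fin k → ℕ) (σ : ℝ) (W : ℕ) (y y' : Fin k → Ω → ℝ) (A : Set Ω)
    (hT : MeasurePreserving T P P) (hσ : σ = 1 ∨ σ = -1) (hy : Tup y) (hy' : Tup y')
    (hA : MeasurableSet[Inv T W] A) (p : ℕ) (hp : W ∣ p - 1) :
    ∫ ω in A, Mis P (Inv T W) y y' ω ∂P - ∑ i, ∑ j ∈ univ.erase i,
      ∫ ω, A.indicator (fun _ => (1 : ℝ)) ω * dl y y' i (T^[(p - 1) * β i] ω) *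
        dl y y' j (T^[(p - 1) * β j] ω) ∂P ≤
      P.real (A ∩ bd T β σ y p) + P.real (A ∩ bd T β σ y' p) := by
  classical
  have hAm : MeasurableSet A := MeasurableSpace.invariants_le _ _ hA
  set g : Fin k → Ω → ℝ := fun i ω => dl y y' i (T^[(p - 1) * β i] ω) with hg
  have hgm : ∀ i, Measurable (g i) := fun i => (dl_meas hy hy' i).comp (iter_meas T _)
  have hgb : ∀ i ω, 0 ≤ g i ω ∧ g i ω ≤ 1 := fun i ω => dl_bd y y' i _
  have hgi : ∀ i, Integrable (g i) P := fun i =>
    Integrable.of_bound (hgm i).aestronglyMeasurable 1 (Eventually.of_forall fun ω => by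
      rw [Real.norm_eq_abs, abs_of_nonneg (hgb i ω).1]; exact (hgb i ω).2)
  have hggi : ∀ i j, Integrable (fun ω => g i ω * g j ω) P := fun i j =>
    Integrable.of_bound ((hgm i).mul (hgm j)).aestronglyMeasurable 1 (Eventually.of_forall fun ω => by
      rw [Real.norm_eq_abs, abs_of_nonneg (mul_nonneg (hgb i ω).1 (hgb j ω).1)]
      exact mul_le_one₀ (hgb i ω).2 (hgb j ω).1 (hgb j ω).2)
  -- the first term
  have e1 : ∫ ω in A, Mis P (Inv T W) y y' ω ∂P = ∑ i, ∫ ω in A, g i ω ∂P := by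
    unfold Mis
    rw [integral_finsetSum _ fun i _ => integrable_condExp.integrableOn]
    refine Finset.sum_congr rfl fun i _ => ?_
    have hint : Integrable (dl y y' i) P :=
      Integrable.of_bound (dl_meas hy hy' i).aestronglyMeasurable 1 (Eventually.of_forall fun ω => by
        rw [Real.norm_eq_abs, abs_of_nonneg (dl_bd y y' i ω).1]; exact (dl_bd y y' i ω).2)
    rw [setIntegral_condExp (MeasurableSpace.invariants_le _) hint hA]
    exact (setInt_iter P T hT hA (Dvd.dvd.mul_right hp _) _).symm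
  have e2 : ∀ i j, ∫ ω, A.indicator (fun _ => (1 : ℝ)) ω * dl y y' i (T^[(p - 1) * β i] ω) *
        dl y y' j (T^[(p - 1) * β j] ω) ∂P = ∫ ω in A, g i ω * g j ω ∂P := by
    intro i j
    rw [← int_ind P hAm]
    refine integral_congr_ae (Eventually.of_forall fun ω => ?_)
    simp only [hg]
    ring
  have e3 : ∫ ω in A, Mis P (Inv T W) y y' ω ∂P - ∑ i, ∑ j ∈ univ.erase i,
      ∫ ω, A.indicator (fun _ => (1 : ℝ)) ω * dl y y' i (T^[(p - 1) * β i] ω) *
        dl y y' j (T^[(p - 1) * β j] ω) ∂P =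
      ∫ ω in A, (∑ i, g i ω - ∑ i, ∑ j ∈ univ.erase i, g i ω * g j ω) ∂P := by
    rw [integral_sub, integral_finsetSum _ fun i _ => (hgi i).integrableOn,
      integral_finsetSum _ fun i _ => ?_, e1]
    · congr 1
      refine Finset.sum_congr rfl fun i _ => ?_
      rw [integral_finsetSum _ fun j _ => (hggi i j).integrableOn]
      exact Finset.sum_congr rfl fun j _ => e2 i j
    · exact integrable_finsetSum _ fun j _ => (hggi i j).integrableOn
    · exact integrable_finsetSum _ fun i _ => (hgi i).integrableOn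
    · exact integrable_finsetSum _ fun i _ =>
        integrable_finsetSum _ fun j _ => (hggi i j).integrableOn
  rw [e3]
  have hb1 := bd_meas T β σ hy p
  have hb2 := bd_meas T β σ hy' p
  have e4 : ∀ B : Set Ω, MeasurableSet B → P.real (A ∩ B) =
      ∫ ω in A, B.indicator (fun _ => (1 : ℝ)) ω ∂P := by
    intro B hB
    rw [setIntegral_indicator hB, setIntegral_const, smul_eq_mul, mul_one]
  rw [e4 _ hb1, e4 _ hb2, ← integral_add]
  · refine setIntegral_mono_on ?_ ?_ hAm fun ω _ => ?_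
    · exact (integrable_finsetSum _ fun i _ => (hgi i).integrableOn).sub
        (integrable_finsetSum _ fun i _ =>
          integrable_finsetSum _ fun j _ => (hggi i j).integrableOn)
    · exact ((integrable_const (1 : ℝ)).indicator hb1).integrableOn.add
        ((integrable_const (1 : ℝ)).indicator hb2).integrableOn
    · refine sign_count (fun i => y i (T^[(p - 1) * β i] ω)) (fun i => y' i (T^[(p - 1) * β i] ω))
        (fun i => hy.2 i _) (fun i => hy'.2 i _) (fun i => g i ω) (fun i => dl_val y y' i _)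
        σ hσ _ _ (Set.indicator_nonneg (fun _ _ => zero_le_one) ω)
        (Set.indicator_nonneg (fun _ _ => zero_le_one) ω) ?_ ?_
      · intro h
        exact Set.indicator_of_mem (s := bd T β σ y p) h _
      · intro h
        exact Set.indicator_of_mem (s := bd T β σ y' p) h _
  · exact ((integrable_const (1 : ℝ)).indicator hb1).integrableOn
  · exact ((integrable_const (1 : ℝ)).indicator hb2).integrableOn

theorem dvd_Dlt {k : ℕ} (β : Fin k → ℕ) {i j : Fin k} (h : β i ≠ β j) :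
    ((β i : ℤ) - β j).natAbs ∣ Dlt β := by
  unfold Dlt
  have h1 : (if β i = β j then 1 else ((β i : ℤ) - β j).natAbs) = ((β i : ℤ) - β j).natAbs := by
    simp [h]
  rw [← h1]
  exact (Finset.dvd_prod_of_mem (fun j => if β i = β j then 1 else ((β i : ℤ) - β j).natAbs)
    (Finset.mem_univ j)).trans
    (Finset.dvd_prod_of_mem (fun i => ∏ j, if β i = β j then 1 else ((β i : ℤ) - β j).natAbs)
      (Finset.mem_univ i))

theorem Dlt_pos {k : ℕ} (β : Fin k → ℕ) : 0 < Dlt β := by
  unfold Dlt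
  refine Finset.prod_pos fun i _ => Finset.prod_pos fun j _ => ?_
  split_ifs with h
  · exact one_pos
  · refine Int.natAbs_pos.2 ?_
    intro h'
    exact h (by omega)

theorem pset_ne (hpi : T_PI) {Ω : Type} [MeasurableSpace Ω] (P : Measure Ω)
    [IsProbabilityMeasure P] (T : Ω ≃ᵐ Ω) (hT : MeasurePreserving T P P) (w W : ℕ) (hw : 2 ≤ w)
    (hW : 0 < W) (hwW : w ! ∣ W) : ∀ᶠ m in atTop, (Pset W m).Nonempty := by
  obtain ⟨m₀, h₀⟩ := hpi Ω P T w W 0 1 1 (fun _ => 1) (fun _ => 1) (fun _ => 1) (1 / 4) hT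
    measurable_const (fun _ => by norm_num) measurable_const (fun _ => by norm_num)
    measurable_const (fun _ => by norm_num) (by omega) hW hwW (by norm_num) (by norm_num)
    one_pos (by norm_num)
  filter_upwards [eventually_ge_atTop m₀] with m hm
  have h1 := h₀ m hm
  by_contra hne
  rw [Finset.not_nonempty_iff_eq_empty] at hne
  have e1 : avgP W m (fun p => ∫ _ω, (1 : ℝ) * 1 * 1 ∂P) = 0 := by
    unfold avgP
    rw [hne]; simp
  rw [e1, condExp_const (MeasurableSpace.invariants_le _), condExp_const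
    (MeasurableSpace.invariants_le _)] at h1
  have h2 : (2 : ℝ) ≤ w := by exact_mod_cast hw
  have h3 : 1 / (w : ℝ) ≤ 1 / 2 := one_div_le_one_div_of_le (by norm_num) h2
  simp only [mul_one, integral_const, smul_eq_mul, probReal_univ, sub_self, abs_zero, mul_zero,
    zero_sub, abs_neg, abs_one] at h1
  linarith

theorem pf_DW (hul : T_UL) (hpi : T_PI) : T_DW := by
  intro Ω mΩ P _ T k β σ w W U y y' A hT hβ hσ hw hW hwW hU hy hy' hA
  classical
  have hAm : MeasurableSet A := MeasurableSpace.invariants_le _ _ hA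
  obtain ⟨-, hmono, hadd, -, hconst⟩ := hul U
  set E : Fin k → Ω → ℝ := fun i => P[dl y y' i | Inv T W] with hE
  set B : Fin k → ℝ := fun i =>
    ∫ ω in A, |(P[dl y y' i | Inv T (W * Dlt β)]) ω - E i ω| ∂P with hB
  have hB0 : ∀ i, 0 ≤ B i := fun i => integral_nonneg fun ω => abs_nonneg _
  set f₁ : ℕ → ℝ := fun m => avgP W m fun p => P.real (A ∩ bd T β σ y p) with hf₁
  set f₂ : ℕ → ℝ := fun m => avgP W m fun p => P.real (A ∩ bd T β σ y' p) with hf₂
  have hb₁ : ∀ m, |f₁ m| ≤ 1 := fun m => avgP_bd fun p => ⟨measureReal_nonneg, measureReal_le_one⟩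
  have hb₂ : ∀ m, |f₂ m| ≤ 1 := fun m => avgP_bd fun p => ⟨measureReal_nonneg, measureReal_le_one⟩
  have hn₁ : ∀ m, 0 ≤ f₁ m := fun m =>
    div_nonneg (Finset.sum_nonneg fun p _ => measureReal_nonneg) (Nat.cast_nonneg _)
  have hn₂ : ∀ m, 0 ≤ f₂ m := fun m =>
    div_nonneg (Finset.sum_nonneg fun p _ => measureReal_nonneg) (Nat.cast_nonneg _)
  have hL₁ : Lam U W P T β σ y A = ul U f₁ := rfl
  have hL₂ : Lam U W P T β σ y' A = ul U f₂ := rfl
  have hL : ul U (fun m => f₁ m + f₂ m) = Lam U W P T β σ y A + Lam U W P T β σ y' A := by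
    rw [hL₁, hL₂]
    exact hadd f₁ f₂ ⟨1, hb₁⟩ ⟨1, hb₂⟩
  have hbs : ∃ C : ℝ, ∀ m, |f₁ m + f₂ m| ≤ C :=
    ⟨2, fun m => (abs_add_le _ _).trans (by linarith [hb₁ m, hb₂ m])⟩
  -- a lower bound for the limit
  have hlow : ∀ c : ℝ, (∀ᶠ m in atTop, c ≤ f₁ m + f₂ m) →
      c ≤ Lam U W P T β σ y A + Lam U W P T β σ y' A := by
    intro c hc
    rw [← hL, ← hconst c]
    exact hmono _ _ ⟨|c|, fun _ => le_rfl⟩ hbs (hU hc)
  -- bounds for the conditional expectations
  have hdi : ∀ i, Integrable (dl y y' i) P := fun i =>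
    Integrable.of_bound (dl_meas hy hy' i).aestronglyMeasurable 1 (Eventually.of_forall fun ω => by
      rw [Real.norm_eq_abs, abs_of_nonneg (dl_bd y y' i ω).1]; exact (dl_bd y y' i ω).2)
  have hEb : ∀ i, ∀ᵐ ω ∂P, |E i ω| ≤ 1 := by
    intro i
    exact ae_bdd_abs_condExp_of_ae_bdd_abs (m := Inv T W) (μ := P) (R := (1 : ℝ))
      (f := dl y y' i) (Eventually.of_forall fun ω => by
        rw [abs_of_nonneg (dl_bd y y' i ω).1]; exact (dl_bd y y' i ω).2)
  have hEi : ∀ i, Integrable (E i) P := fun i => integrable_condExp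
  have hEEi : ∀ i j, Integrable (fun ω => E i ω * E j ω) P := by
    intro i j
    refine Integrable.of_bound ((hEi i).aestronglyMeasurable.mul (hEi j).aestronglyMeasurable) 1 ?_
    filter_upwards [hEb i, hEb j] with ω h1 h2
    rw [Real.norm_eq_abs, abs_mul]
    exact mul_le_one₀ h1 (abs_nonneg _) h2
  have hMe : ∀ ω, Mis P (Inv T W) y y' ω = ∑ i, E i ω := fun ω => rfl
  have hMi : Integrable (Mis P (Inv T W) y y') P := by
    unfold Mis
    exact integrable_finsetSum _ fun i _ => hEi i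
  have hM2 : ∀ ω, Mis P (Inv T W) y y' ω ^ 2 = ∑ i, ∑ j, E i ω * E j ω := by
    intro ω
    rw [hMe, sq, Finset.sum_mul_sum]
  have hM2i : Integrable (fun ω => Mis P (Inv T W) y y' ω ^ 2) P := by
    simp_rw [hM2]
    exact integrable_finsetSum _ fun i _ => integrable_finsetSum _ fun j _ => hEEi i j
  have hsplit : ∫ ω in A, (Mis P (Inv T W) y y' ω - Mis P (Inv T W) y y' ω ^ 2) ∂P =
      ∫ ω in A, Mis P (Inv T W) y y' ω ∂P - ∫ ω in A, Mis P (Inv T W) y y' ω ^ 2 ∂P :=
    integral_sub hMi.integrableOn hM2i.integrableOn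
  have hPA : 0 ≤ P.real A := measureReal_nonneg
  rcases Nat.lt_or_ge w 2 with hw1 | hw2
  · -- the case `w = 1`
    have hw1' : w = 1 := by omega
    have h0 : 0 ≤ Lam U W P T β σ y A + Lam U W P T β σ y' A :=
      hlow 0 (Eventually.of_forall fun m => add_nonneg (hn₁ m) (hn₂ m))
    have h1 : 0 ≤ (k : ℝ) * ∑ i, B i :=
      mul_nonneg (Nat.cast_nonneg _) (Finset.sum_nonneg fun i _ => hB0 i)
    have h2 : ∫ ω in A, (Mis P (Inv T W) y y' ω - Mis P (Inv T W) y y' ω ^ 2) ∂P ≤
        (k : ℝ) ^ 2 * P.real A := by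
      rcases Nat.eq_zero_or_pos k with hk | hk
      · subst hk
        have h3 : ∀ ω, Mis P (Inv T W) y y' ω = 0 := fun ω => by
          rw [hMe]; exact Finset.sum_of_isEmpty _
        simp [h3]
      · have h3 : ∫ ω in A, (Mis P (Inv T W) y y' ω - Mis P (Inv T W) y y' ω ^ 2) ∂P ≤
            ∫ ω in A, (1 : ℝ) ∂P := by
          refine setIntegral_mono_on (hMi.integrableOn.sub hM2i.integrableOn)
            (integrable_const _).integrableOn hAm fun ω _ => ?_
          nlinarith [sq_nonneg (Mis P (Inv T W) y y' ω - 1)]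
        rw [setIntegral_const, smul_eq_mul, mul_one] at h3
        have h4 : (1 : ℝ) ≤ k := by exact_mod_cast hk
        have h5 : (1 : ℝ) ≤ (k : ℝ) ^ 2 := one_le_pow₀ h4
        nlinarith
    rw [hw1']
    simp only [Nat.cast_one, div_one]
    linarith
  · -- the case `2 ≤ w`
    have hne := pset_ne hpi P T hT w W hw2 hW hwW
    refine le_of_forall_pos_le_add fun ε hε => ?_
    set ε' : ℝ := ε / ((k : ℝ) ^ 2 + 1) with hε'
    have hk0 : (0 : ℝ) < (k : ℝ) ^ 2 + 1 := by positivity
    have hε'0 : 0 < ε' := div_pos hε hk0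
    have hkε : (k : ℝ) ^ 2 * ε' ≤ ε := by
      rw [hε', mul_div_assoc', div_le_iff₀ hk0]
      nlinarith
    set G : Fin k → Fin k → ℕ → ℝ := fun i j p =>
      ∫ ω, A.indicator (fun _ => (1 : ℝ)) ω * dl y y' i (T^[(p - 1) * β i] ω) *
        dl y y' j (T^[(p - 1) * β j] ω) ∂P with hG
    have hpairs : ∀ᶠ m in atTop, ∀ i j, i ≠ j → avgP W m (G i j) ≤
        ∫ ω in A, E i ω * E j ω ∂P + (B i + (1 / (w : ℝ) * P.real A + ε')) := by
      rw [eventually_all]
      intro i
      rw [eventually_all]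
      intro j
      by_cases hij : i = j
      · exact Eventually.of_forall fun m h => absurd hij h
      obtain ⟨m₀, h₀⟩ := hpi Ω P T w W (β i) (β j) (Dlt β) (A.indicator fun _ => (1 : ℝ))
        (dl y y' i) (dl y y' j) ε' hT (Measurable.indicator measurable_const hA)
        (fun ω => ⟨Set.indicator_nonneg (fun _ _ => zero_le_one) ω,
          Set.indicator_le_self' (fun _ _ => zero_le_one) ω⟩)
        (dl_meas hy hy' i) (fun ω => by
          rw [abs_of_nonneg (dl_bd y y' i ω).1]; exact (dl_bd y y' i ω).2)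
        (dl_meas hy hy' j) (fun ω => by
          rw [abs_of_nonneg (dl_bd y y' j ω).1]; exact (dl_bd y y' j ω).2)
        hw hW hwW (fun h => hij (hβ h)) (dvd_Dlt β fun h => hij (hβ h)) (Dlt_pos β) hε'0
      filter_upwards [eventually_ge_atTop m₀] with m hm _
      have h1 := h₀ m hm
      have h2 : ∫ ω, A.indicator (fun _ => (1 : ℝ)) ω * (P[dl y y' i | Inv T W]) ω *
          (P[dl y y' j | Inv T W]) ω ∂P = ∫ ω in A, E i ω * E j ω ∂P := by
        rw [← int_ind P hAm]
        refine integral_congr_ae (Eventually.of_forall fun ω => ?_)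
        simp only [hE]
        ring
      have h3 : ∫ ω, A.indicator (fun _ => (1 : ℝ)) ω *
          |(P[dl y y' i | Inv T (W * Dlt β)]) ω - (P[dl y y' i | Inv T W]) ω| ∂P = B i :=
        int_ind P hAm _
      have h4 : ∫ ω, A.indicator (fun _ => (1 : ℝ)) ω ∂P = P.real A := by
        rw [integral_indicator hAm, setIntegral_const, smul_eq_mul, mul_one]
      rw [h2, h3, h4] at h1
      have h5 := (abs_le.1 h1).2
      change avgP W m (G i j) - _ ≤ _ at h5
      linarith
    have hev : ∀ᶠ m in atTop, ∫ ω in A, Mis P (Inv T W) y y' ω ∂P -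
        ∫ ω in A, Mis P (Inv T W) y y' ω ^ 2 ∂P -
        (k * ∑ i, B i + (k : ℝ) ^ 2 * (1 / (w : ℝ) * P.real A + ε')) ≤ f₁ m + f₂ m := by
      filter_upwards [hne, hpairs] with m hm hpm
      have h1 : ∫ ω in A, Mis P (Inv T W) y y' ω ∂P - ∑ i, ∑ j ∈ univ.erase i, avgP W m (G i j) ≤
          f₁ m + f₂ m := by
        have h2 : avgP W m (fun p => ∫ ω in A, Mis P (Inv T W) y y' ω ∂P -
            ∑ i, ∑ j ∈ univ.erase i, G i j p) ≤
            avgP W m (fun p => P.real (A ∩ bd T β σ y p) + P.real (A ∩ bd T β σ y' p)) :=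
          avgP_le fun p hp => pair_bound P T β σ W y y' A hT hσ hy hy' hA p (dvd_of_mem hp)
        rw [avgP_sub, avgP_const hm, avgP_add, avgP_sum] at h2
        simp_rw [avgP_sum] at h2
        exact h2
      have h3 : ∑ i, ∑ j ∈ univ.erase i, avgP W m (G i j) ≤
          ∑ i, ∑ j ∈ univ.erase i, (∫ ω in A, E i ω * E j ω ∂P +
            (B i + (1 / (w : ℝ) * P.real A + ε'))) :=
        Finset.sum_le_sum fun i _ => Finset.sum_le_sum fun j hj =>
          hpm i j (Finset.ne_of_mem_erase hj).symm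
      have h4 : ∑ i, ∑ j ∈ univ.erase i, (∫ ω in A, E i ω * E j ω ∂P +
            (B i + (1 / (w : ℝ) * P.real A + ε'))) =
          ∑ i, ∑ j ∈ univ.erase i, ∫ ω in A, E i ω * E j ω ∂P +
          ∑ i : Fin k, ∑ j ∈ univ.erase i, (B i + (1 / (w : ℝ) * P.real A + ε')) := by
        rw [← Finset.sum_add_distrib]
        refine Finset.sum_congr rfl fun i _ => ?_
        rw [← Finset.sum_add_distrib]
      have h5 : ∑ i : Fin k, ∑ j ∈ univ.erase i, (B i + (1 / (w : ℝ) * P.real A + ε')) ≤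
          k * ∑ i, B i + (k : ℝ) ^ 2 * (1 / (w : ℝ) * P.real A + ε') := by
        have h6 : ∀ i : Fin k, ∑ j ∈ univ.erase i, (B i + (1 / (w : ℝ) * P.real A + ε')) ≤
            k * (B i + (1 / (w : ℝ) * P.real A + ε')) := by
          intro i
          have h7 : 0 ≤ B i + (1 / (w : ℝ) * P.real A + ε') := by
            have := hB0 i
            positivity
          rw [Finset.sum_const, nsmul_eq_mul]
          refine mul_le_mul_of_nonneg_right ?_ h7
          have h8 : (univ.erase i).card ≤ k := by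
            refine (Finset.card_le_card (Finset.erase_subset _ _)).trans ?_
            rw [Finset.card_univ, Fintype.card_fin]
          exact_mod_cast h8
        refine (Finset.sum_le_sum fun i _ => h6 i).trans (le_of_eq ?_)
        rw [← Finset.mul_sum, Finset.sum_add_distrib, Finset.sum_const, Finset.card_univ,
          Fintype.card_fin, nsmul_eq_mul]
        ring
      have h9 : ∑ i, ∑ j ∈ univ.erase i, ∫ ω in A, E i ω * E j ω ∂P ≤
          ∫ ω in A, Mis P (Inv T W) y y' ω ^ 2 ∂P := by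
        have h10 : ∑ i, ∑ j ∈ univ.erase i, ∫ ω in A, E i ω * E j ω ∂P =
            ∫ ω in A, ∑ i, ∑ j ∈ univ.erase i, E i ω * E j ω ∂P := by
          rw [integral_finsetSum _ fun i _ => ?_]
          · refine Finset.sum_congr rfl fun i _ => ?_
            rw [integral_finsetSum _ fun j _ => (hEEi i j).integrableOn]
          · exact integrable_finsetSum _ fun j _ => (hEEi i j).integrableOn
        rw [h10]
        refine setIntegral_mono_on (integrable_finsetSum _ fun i _ =>
          integrable_finsetSum _ fun j _ => (hEEi i j).integrableOn) hM2i.integrableOn hAm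
          fun ω _ => ?_
        have h11 := sq_sum_erase fun i => E i ω
        have h12 : 0 ≤ ∑ i, E i ω ^ 2 := Finset.sum_nonneg fun i _ => sq_nonneg _
        rw [hMe]
        linarith
      linarith
    have hfin := hlow _ hev
    rw [hsplit]
    have h13 : (k : ℝ) ^ 2 * (1 / (w : ℝ) * P.real A + ε') =
        (k : ℝ) ^ 2 / w * P.real A + (k : ℝ) ^ 2 * ε' := by ring
    rw [h13] at hfin
    linarith

end Pool.Agent.H3.GA
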